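import Pool.Agent.Helper15.FC.St3

set_option autoImplicit false

/-!
Project FC, module DIR: Dirichlet approximation.
-/

namespace Pool.Agent.Helper97.FC

open Pool.Agent.Helper15.FC Polynomial

/-- `f ↦ η (s * (f %ₘ r))` -/
noncomputable def modChar {F : Type} [Field F] (η : AddChar F[X] ℂ) (s r : F[X]) :
    AddChar F[X] ℂ where
  toFun f := η (s * (f %ₘ r))
  map_zero_eq_one' := by
    rw [Polynomial.zero_modByMonic, mul_zero, AddChar.map_zero_eq_one]
  map_add_eq_mul' f g := by
    rw [Polynomial.add_modByMonic, mul_add, AddChar.map_add_eq_mul]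

theorem modChar_apply {F : Type} [Field F] (η : AddChar F[X] ℂ) (s r f : F[X]) :
    modChar η s r f = η (s * (f %ₘ r)) := rfl

theorem modChar_mem {F : Type} [Field F] (η : AddChar F[X] ℂ) (s : F[X]) {r : F[X]}
    (hr : r.Monic) : modChar η s r ∈ AC r := by
  intro g
  rw [modChar_apply, Polynomial.self_mul_modByMonic hr, mul_zero, AddChar.map_zero_eq_one]

theorem exists_ne_zero (hACF : StACF) {F : Type} [Field F] [Fintype F] (Q : ℕ)
    (η : AddChar F[X] ℂ) :
    ∃ r : F[X], r ≠ 0 ∧ r ∈ Lw F (Q + 1) ∧ ∀ g ∈ Lw F Q, η (r * g) = 1 := by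
  classical
  obtain ⟨-, h2⟩ := hACF F
  obtain ⟨-, hmem, hcard, -, -⟩ := h2 (X ^ Q) (Polynomial.monic_X_pow Q)
  rw [Polynomial.natDegree_X_pow] at hcard
  have hq : 1 < Fintype.card F := Fintype.one_lt_card
  have hlt : (ACf (X ^ Q : F[X])).card < (Lw F (Q + 1)).card := by
    rw [hcard, card_Lw]
    exact Nat.pow_lt_pow_right hq (Nat.lt_succ_self Q)
  obtain ⟨r1, hr1, r2, hr2, hne, heq⟩ := Finset.exists_ne_map_eq_of_card_lt_of_maps_to hlt
    (f := fun s => modChar η s (X ^ Q))
    (fun s _ => (hmem _).2 (modChar_mem η s (Polynomial.monic_X_pow Q)))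
  refine ⟨r1 - r2, sub_ne_zero.2 hne, ?_, ?_⟩
  · rw [mem_Lw] at hr1 hr2 ⊢
    exact lt_of_le_of_lt (Polynomial.degree_sub_le _ _) (max_lt hr1 hr2)
  · intro g hg
    rw [mem_Lw] at hg
    have hgm : g %ₘ (X ^ Q) = g := by
      rw [Polynomial.modByMonic_eq_self_iff (Polynomial.monic_X_pow Q), Polynomial.degree_X_pow]
      exact hg
    have h3 : η (r1 * g) = η (r2 * g) := by
      have := DFunLike.congr_fun heq g
      simp only [modChar_apply, hgm] at this
      exact this
    have h4 : η (r2 * g) ≠ 0 := by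
      intro h0
      have h5 : η (r2 * g + -(r2 * g)) = 0 := by
        rw [AddChar.map_add_eq_mul, h0, zero_mul]
      rw [add_neg_cancel, AddChar.map_zero_eq_one] at h5
      exact one_ne_zero h5
    have h6 : η ((r1 - r2) * g) * η (r2 * g) = 1 * η (r2 * g) := by
      rw [← AddChar.map_add_eq_mul, one_mul, ← h3]
      congr 1
      ring
    exact mul_right_cancel₀ h4 h6

theorem divByMonic_mem {F : Type} [Field F] [Fintype F] {r g : F[X]} {Q : ℕ} (hr : r.Monic)
    (hg : g ∈ Lw F (r.natDegree + Q)) : g /ₘ r ∈ Lw F Q := by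
  rw [mem_Lw] at hg ⊢
  by_cases h0 : g /ₘ r = 0
  · rw [h0, Polynomial.degree_zero]
    exact WithBot.bot_lt_coe Q
  · have h1 : r.degree ≤ g.degree := by
      by_contra h
      exact h0 ((Polynomial.divByMonic_eq_zero_iff hr).2 (not_le.1 h))
    have hg0 : g ≠ 0 := by
      rintro rfl
      exact h0 (Polynomial.zero_divByMonic r)
    have h2 := Polynomial.degree_add_divByMonic hr h1
    rw [Polynomial.degree_eq_natDegree hr.ne_zero, Polynomial.degree_eq_natDegree h0,
      Polynomial.degree_eq_natDegree hg0] at h2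
    rw [Polynomial.degree_eq_natDegree hg0] at hg
    rw [Polynomial.degree_eq_natDegree h0]
    have h3 : r.natDegree + (g /ₘ r).natDegree = g.natDegree := by exact_mod_cast h2
    have h4 : g.natDegree < r.natDegree + Q := by exact_mod_cast hg
    have h5 : (g /ₘ r).natDegree < Q := by omega
    exact_mod_cast h5

theorem hDIR (hACF : StACF) : StDIR := by
  classical
  intro F _ _ m Q η _ _
  obtain ⟨r0, hr0, hr0m, hr0g⟩ := exists_ne_zero hACF Q η
  have hex : ∃ n : ℕ, ∃ r : F[X], r.Monic ∧ r.natDegree = n ∧ ∀ g ∈ Lw F Q, η (r * g) = 1 := by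
    refine ⟨r0.natDegree, C (r0.leadingCoeff⁻¹) * r0, ?_, ?_, ?_⟩
    · rw [mul_comm]
      exact Polynomial.monic_mul_leadingCoeff_inv hr0
    · exact Polynomial.natDegree_C_mul (inv_ne_zero (Polynomial.leadingCoeff_ne_zero.2 hr0))
    · intro g hg
      have h1 : C (r0.leadingCoeff⁻¹) * r0 * g = r0 * (C (r0.leadingCoeff⁻¹) * g) := by ring
      rw [h1]
      refine hr0g _ ?_
      rw [mem_Lw] at hg ⊢
      rwa [Polynomial.degree_C_mul (inv_ne_zero (Polynomial.leadingCoeff_ne_zero.2 hr0))]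
  obtain ⟨r, hr, hrn, hrg⟩ := Nat.find_spec hex
  have hmin : ∀ r' : F[X], r'.Monic → (∀ g ∈ Lw F Q, η (r' * g) = 1) →
      r.natDegree ≤ r'.natDegree := by
    intro r' h1 h2
    rw [hrn]
    exact Nat.find_min' hex ⟨r', h1, rfl, h2⟩
  have hrQ : r.natDegree ≤ Q := by
    have h1 : Nat.find hex ≤ r0.natDegree := by
      refine Nat.find_min' hex ⟨C (r0.leadingCoeff⁻¹) * r0, ?_, ?_, ?_⟩
      · rw [mul_comm]
        exact Polynomial.monic_mul_leadingCoeff_inv hr0
      · exact Polynomial.natDegree_C_mul (inv_ne_zero (Polynomial.leadingCoeff_ne_zero.2 hr0))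
      · intro g hg
        have h1 : C (r0.leadingCoeff⁻¹) * r0 * g = r0 * (C (r0.leadingCoeff⁻¹) * g) := by ring
        rw [h1]
        refine hr0g _ ?_
        rw [mem_Lw] at hg ⊢
        rwa [Polynomial.degree_C_mul (inv_ne_zero (Polynomial.leadingCoeff_ne_zero.2 hr0))]
    have h2 : r0.natDegree < Q + 1 := by
      rw [mem_Lw, Polynomial.degree_eq_natDegree hr0] at hr0m
      exact_mod_cast hr0m
    omega
  have hag : ∀ g ∈ Lw F (r.natDegree + Q), η g = modChar η 1 r g := by
    intro g hg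
    rw [modChar_apply, one_mul]
    have h1 : η (r * (g /ₘ r)) = 1 := hrg _ (divByMonic_mem hr hg)
    calc η g = η (g %ₘ r + r * (g /ₘ r)) := by rw [Polynomial.modByMonic_add_div g r]
      _ = η (g %ₘ r) := by rw [AddChar.map_add_eq_mul, h1, mul_one]
  refine ⟨r, modChar η 1 r, hr, hrQ, ?_, hag⟩
  obtain ⟨-, h2⟩ := hACF F
  obtain ⟨-, hmem, -, -, -⟩ := h2 r hr
  unfold Pr
  rw [Finset.mem_filter]
  refine ⟨(hmem _).2 (modChar_mem η 1 hr), ?_⟩
  intro r' hr' hdvd hac
  by_contra hne
  obtain ⟨c, hc⟩ := hdvd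
  have hcm : c.Monic := hr'.of_mul_monic_left (hc ▸ hr)
  have hdeg : r.natDegree = r'.natDegree + c.natDegree := by
    rw [hc, hr'.natDegree_mul hcm]
  have hc0 : c.natDegree ≠ 0 := by
    intro h0
    apply hne
    rw [hc, hcm.natDegree_eq_zero.1 h0, mul_one]
  have h3 : r.natDegree ≤ r'.natDegree := by
    refine hmin r' hr' ?_
    intro g hg
    have h4 : r' * g ∈ Lw F (r.natDegree + Q) := by
      rw [mem_Lw] at hg ⊢
      by_cases hg0 : g = 0
      · rw [hg0, mul_zero, Polynomial.degree_zero]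
        exact WithBot.bot_lt_coe _
      · rw [Polynomial.degree_eq_natDegree hg0] at hg
        have hg' : g.natDegree < Q := by exact_mod_cast hg
        rw [Polynomial.degree_eq_natDegree (mul_ne_zero hr'.ne_zero hg0),
          Polynomial.natDegree_mul hr'.ne_zero hg0]
        have : r'.natDegree + g.natDegree < r.natDegree + Q := by omega
        exact_mod_cast this
    rw [hag _ h4]
    exact hac g
  omega

end Pool.Agent.Helper97.FC
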