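import Pool.Agent.Helper15.FC.St2

set_option autoImplicit false

/-!
Project FC, module ORR: orthogonality of the characters modulo `r`.
-/

namespace Pool.Agent.Helper97.FC

open Pool.Agent.Helper15.FC Polynomial

/-- the sum over all characters vanishes off `1` -/
theorem sum_char_zero {M : Type} [CommRing M] [Finite M] {a : M} (ha : a ≠ 1) :
    ∑ χ ∈ allF (MulChar M ℂ), χ a = 0 := by
  classical
  haveI : Fintype (MulChar M ℂ) := Fintype.ofFinite _
  rw [allF_eq_univ]
  obtain ⟨χ, hχ⟩ := MulChar.exists_apply_ne_one_of_hasEnoughRootsOfUnity M ℂ ha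
  refine eq_zero_of_mul_eq_self_left hχ ?_
  simp only [Finset.mul_sum, ← MulChar.mul_apply]
  exact Fintype.sum_bijective _ (Group.mulLeft_bijective χ) _ _ fun χ' ↦ rfl

/-- the number of characters -/
theorem card_char (M : Type) [CommRing M] [Finite M] :
    (allF (MulChar M ℂ)).card = Nat.card Mˣ := by
  classical
  haveI : Fintype (MulChar M ℂ) := Fintype.ofFinite _
  rw [allF_eq_univ, Finset.card_univ, ← Nat.card_eq_fintype_card]
  exact MulChar.card_eq_card_units_of_hasEnoughRootsOfUnity M ℂ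

theorem char_mul_conj {M : Type} [CommRing M] [Finite M] (χ : MulChar M ℂ) (a b : M) :
    χ a * (starRingEnd ℂ) (χ b) = χ (a * Ring.inverse b) := by
  have h : (starRingEnd ℂ) (χ b) = χ⁻¹ b := by
    rw [← MulChar.star_eq_inv, MulChar.star_apply]
    rfl
  rw [h, MulChar.inv_apply, ← map_mul]

theorem isUnit_mk {F : Type} [Field F] (r f : F[X]) :
    IsUnit (AdjoinRoot.mk r f) ↔ IsCoprime f r := by
  constructor
  · intro h
    obtain ⟨u, hu⟩ := h.exists_right_inv
    obtain ⟨a, rfl⟩ := AdjoinRoot.mk_surjective u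
    have h1 : AdjoinRoot.mk r (f * a) = AdjoinRoot.mk r 1 := by
      rw [map_mul, map_one]
      exact hu
    rw [AdjoinRoot.mk_eq_mk] at h1
    obtain ⟨c, hc⟩ := h1
    exact ⟨a, -c, by linear_combination hc⟩
  · rintro ⟨a, b, hab⟩
    refine IsUnit.of_mul_eq_one (AdjoinRoot.mk r a) ?_
    rw [← map_mul, ← map_one (AdjoinRoot.mk r), AdjoinRoot.mk_eq_mk]
    exact ⟨-b, by linear_combination hab⟩

theorem card_units {F : Type} [Field F] [Fintype F] {r : F[X]} (hr : r.Monic) :
    Nat.card (AdjoinRoot r)ˣ = phi r := by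
  classical
  haveI : Finite (AdjoinRoot r) := finite_AR hr
  haveI : Fintype (AdjoinRoot r)ˣ := Fintype.ofFinite _
  rw [Nat.card_eq_fintype_card, ← Finset.card_univ]
  unfold phi
  symm
  refine Finset.card_bij (fun x hx => ((isUnit_mk r x).2 (Finset.mem_filter.1 hx).2).unit)
    (fun x hx => Finset.mem_univ _) ?_ ?_
  · intro x hx y hy hxy
    have h1 : AdjoinRoot.mk r x = AdjoinRoot.mk r y := by
      have := congrArg (fun u : (AdjoinRoot r)ˣ => (u : AdjoinRoot r)) hxy
      simpa using this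
    rw [AdjoinRoot.mk_eq_mk] at h1
    have hx' := mem_Lw.1 (Finset.mem_filter.1 hx).1
    have hy' := mem_Lw.1 (Finset.mem_filter.1 hy).1
    have h2 : (x - y).degree < r.degree := by
      rw [Polynomial.degree_eq_natDegree hr.ne_zero]
      exact lt_of_le_of_lt (Polynomial.degree_sub_le x y) (max_lt hx' hy')
    exact sub_eq_zero.1 (Polynomial.eq_zero_of_dvd_of_degree_lt h1 h2)
  · intro u _
    obtain ⟨f, hf⟩ := AdjoinRoot.mk_surjective (u : AdjoinRoot r)
    have h3 : AdjoinRoot.mk r (f %ₘ r) = (u : AdjoinRoot r) := by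
      rw [← hf, AdjoinRoot.mk_eq_mk]
      refine ⟨-(f /ₘ r), ?_⟩
      have := Polynomial.modByMonic_add_div f r
      linear_combination this
    have h4 : IsCoprime (f %ₘ r) r := by
      rw [← isUnit_mk, h3]
      exact u.isUnit
    refine ⟨f %ₘ r, Finset.mem_filter.2 ⟨mem_Lw.2 ?_, h4⟩, ?_⟩
    · have := Polynomial.degree_modByMonic_lt f hr
      rwa [Polynomial.degree_eq_natDegree hr.ne_zero] at this
    · apply Units.ext
      rw [IsUnit.unit_spec]
      exact h3

theorem hORR : StORR := by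
  intro F _ _ r f g hr hf hg
  haveI : Finite (AdjoinRoot r) := finite_AR hr
  have hc : (allF (MulChar (AdjoinRoot r) ℂ)).card = phi r := by
    rw [card_char, card_units hr]
  have hgu : IsUnit (AdjoinRoot.mk r g) := (isUnit_mk r g).2 hg
  refine ⟨hc, fun h => ?_, fun h => ?_⟩
  · have h1 : AdjoinRoot.mk r f * Ring.inverse (AdjoinRoot.mk r g) = 1 := by
      rw [AdjoinRoot.mk_eq_mk.2 h, Ring.mul_inverse_cancel _ hgu]
    simp only [char_mul_conj, h1, map_one, Finset.sum_const, hc, nsmul_eq_mul, mul_one]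
  · have h1 : AdjoinRoot.mk r f * Ring.inverse (AdjoinRoot.mk r g) ≠ 1 := by
      intro h2
      apply h
      rw [← AdjoinRoot.mk_eq_mk]
      calc AdjoinRoot.mk r f = AdjoinRoot.mk r f * (Ring.inverse (AdjoinRoot.mk r g) *
            AdjoinRoot.mk r g) := by rw [Ring.inverse_mul_cancel _ hgu, mul_one]
        _ = AdjoinRoot.mk r g := by rw [← mul_assoc, h2, one_mul]
    simp only [char_mul_conj]
    exact sum_char_zero h1

end Pool.Agent.Helper97.FC
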