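import Pool.Agent.Helper15.FC.St5

set_option autoImplicit false

/-!
Project FC, module SSP: the singular series is bounded below, uniformly in `h`.
-/

namespace Pool.Agent.Helper97.FC

open Pool.Agent.Helper15.FC Polynomial Filter Topology

open scoped Classical

noncomputable section

namespace SSP

/-- the terms of the singular series -/
def wf {F : Type} [Field F] [Fintype F] (j j' : ℕ) (h r : F[X]) : ℝ :=
  Gk j r * Gk j' r * (qr F ^ (2 * r.natDegree))⁻¹ * (cram r h : ℝ)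

theorem two_le_qr (F : Type) [Field F] [Fintype F] : (2 : ℝ) ≤ qr F := by
  have h : 1 < Fintype.card F := Fintype.one_lt_card
  have h' : 2 ≤ Fintype.card F := h
  exact_mod_cast h'

theorem qr_pos (F : Type) [Field F] [Fintype F] : (0 : ℝ) < qr F := by
  have := two_le_qr F
  linarith

variable {F : Type} [Field F] [Fintype F]

theorem Gs_eq (j j' : ℕ) (h : F[X]) (i : ℕ) : Gs j j' h i = ∑ r ∈ Mn F i, wf j j' h r := by
  unfold Gs
  refine Finset.sum_congr rfl fun r hr => ?_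
  rw [wf, (mem_Mn.1 hr).2]

theorem mob_le (f : F[X]) : |((mob f : ℤ) : ℝ)| ≤ 1 := by
  unfold mob
  split_ifs
  · simp
  · simp

theorem cram_le (r h : F[X]) :
    |(cram r h : ℝ)| ≤ ∑ d ∈ (Dv r).filter (fun d => d ∣ h), qr F ^ d.natDegree := by
  unfold cram
  push_cast
  refine (Finset.abs_sum_le_sum_abs _ _).trans (Finset.sum_le_sum fun d _ => ?_)
  have hq := qr_pos F
  rw [abs_mul]
  have h1 : |((Fintype.card F : ℝ)) ^ d.natDegree| = qr F ^ d.natDegree :=
    abs_of_nonneg (pow_nonneg hq.le _)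
  rw [h1]
  calc _ ≤ 1 * qr F ^ d.natDegree :=
        mul_le_mul_of_nonneg_right (mob_le _) (pow_nonneg hq.le _)
    _ = _ := one_mul _

theorem card_mult (d : F[X]) (hd : d.Monic) (i : ℕ) :
    qr F ^ d.natDegree * (((Mn F i).filter (fun r => d ∣ r)).card : ℝ) ≤ qr F ^ i := by
  have hq := qr_pos F
  by_cases hdi : d.natDegree ≤ i
  · have hsub : (Mn F i).filter (fun r => d ∣ r) ⊆
        (Mn F (i - d.natDegree)).image (fun c => d * c) := by
      intro r hr
      rw [Finset.mem_filter, mem_Mn] at hr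
      obtain ⟨⟨hrm, hri⟩, c, rfl⟩ := hr
      have hc : c.Monic := hd.of_mul_monic_left hrm
      rw [Finset.mem_image]
      refine ⟨c, mem_Mn.2 ⟨hc, ?_⟩, rfl⟩
      rw [hd.natDegree_mul hc] at hri
      omega
    have h1 := (Finset.card_le_card hsub).trans Finset.card_image_le
    rw [card_Mn] at h1
    have h2 : (((Mn F i).filter (fun r => d ∣ r)).card : ℝ) ≤ qr F ^ (i - d.natDegree) := by
      exact_mod_cast h1
    calc _ ≤ qr F ^ d.natDegree * qr F ^ (i - d.natDegree) :=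
          mul_le_mul_of_nonneg_left h2 (pow_nonneg hq.le _)
      _ = qr F ^ i := by
          rw [← pow_add]
          congr 1
          omega
  · have h0 : (Mn F i).filter (fun r => d ∣ r) = ∅ := by
      rw [Finset.filter_eq_empty_iff]
      intro r hr hdr
      obtain ⟨h1, h2⟩ := mem_Mn.1 hr
      have := Polynomial.natDegree_le_of_dvd hdr h1.ne_zero
      omega
    rw [h0, Finset.card_empty, Nat.cast_zero, mul_zero]
    exact pow_nonneg hq.le _

theorem sum_cram_le (h : F[X]) (hh : h ≠ 0) (i : ℕ) :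
    ∑ r ∈ Mn F i, |(cram r h : ℝ)| ≤ ((Dv h).card : ℝ) * qr F ^ i := by
  calc ∑ r ∈ Mn F i, |(cram r h : ℝ)|
      ≤ ∑ r ∈ Mn F i, ∑ d ∈ (Dv h).filter (fun d => d ∣ r), qr F ^ d.natDegree := by
        refine Finset.sum_le_sum fun r hr => ?_
        have hr0 : r ≠ 0 := (mem_Mn.1 hr).1.ne_zero
        refine (cram_le r h).trans (le_of_eq ?_)
        refine Finset.sum_congr ?_ fun _ _ => rfl
        ext d
        rw [Finset.mem_filter, Finset.mem_filter, mem_Dv hr0, mem_Dv hh]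
        tauto
    _ = ∑ d ∈ Dv h, ∑ r ∈ (Mn F i).filter (fun r => d ∣ r), qr F ^ d.natDegree := by
        simp only [Finset.sum_filter]
        exact Finset.sum_comm
    _ ≤ ∑ d ∈ Dv h, qr F ^ i := by
        refine Finset.sum_le_sum fun d hd => ?_
        rw [Finset.sum_const, nsmul_eq_mul, mul_comm]
        exact card_mult d ((mem_Dv hh).1 hd).1 i
    _ = _ := by rw [Finset.sum_const, nsmul_eq_mul]

/-- the sum of the absolute values of the terms of degree `i` -/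
def Aa (j j' : ℕ) (h : F[X]) (i : ℕ) : ℝ := ∑ r ∈ Mn F i, |wf j j' h r|

theorem Aa_nonneg (j j' : ℕ) (h : F[X]) (i : ℕ) : 0 ≤ Aa j j' h i :=
  Finset.sum_nonneg fun _ _ => abs_nonneg _

theorem exists_G (hGKM : StGKM) (hTAU : StTAU) (F : Type) [Field F] [Fintype F] (j j' : ℕ) :
    ∃ B : ℝ, 0 ≤ B ∧ ∀ r : F[X], r.Monic →
      0 ≤ Gk j r * Gk j' r ∧ Gk j r * Gk j' r ≤ B * Real.sqrt (qr F) ^ r.natDegree := by
  have hq2 := two_le_qr F
  have hq := qr_pos F
  obtain ⟨C, hC1, hC⟩ := hTAU F (1 / (2 * ((j + j' : ℕ) + 1 : ℝ))) (by positivity)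
  refine ⟨C ^ (j + j'), by positivity, fun r hr => ?_⟩
  obtain ⟨-, -, hj⟩ := hGKM F j
  obtain ⟨-, -, hj'⟩ := hGKM F j'
  obtain ⟨a1, a2⟩ := hj r hr
  obtain ⟨b1, b2⟩ := hj' r hr
  refine ⟨mul_nonneg a1 b1, ?_⟩
  have ht0 : 0 ≤ tau r := by
    unfold tau
    positivity
  have ht : tau r ≤ C * qr F ^ ((1 / (2 * ((j + j' : ℕ) + 1 : ℝ))) * (r.natDegree : ℝ)) := by
    unfold tau
    exact hC r hr
  have h1 : Gk j r * Gk j' r ≤ tau r ^ (j + j') := by
    rw [pow_add]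
    exact mul_le_mul a2 b2 b1 (pow_nonneg ht0 _)
  have h2 : tau r ^ (j + j') ≤
      (C * qr F ^ ((1 / (2 * ((j + j' : ℕ) + 1 : ℝ))) * (r.natDegree : ℝ))) ^ (j + j') :=
    pow_le_pow_left₀ ht0 ht _
  refine (h1.trans h2).trans ?_
  rw [mul_pow]
  refine mul_le_mul_of_nonneg_left ?_ (by positivity)
  rw [← Real.rpow_natCast (qr F ^ _) (j + j'), ← Real.rpow_mul hq.le,
    ← Real.rpow_natCast (Real.sqrt (qr F)) r.natDegree, Real.sqrt_eq_rpow, ← Real.rpow_mul hq.le]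
  refine Real.rpow_le_rpow_of_exponent_le (by linarith) ?_
  have hJ : (0 : ℝ) ≤ ((j + j' : ℕ) : ℝ) := Nat.cast_nonneg _
  have hn : (0 : ℝ) ≤ (r.natDegree : ℝ) := Nat.cast_nonneg _
  have h3 : 1 / (2 * (((j + j' : ℕ) : ℝ) + 1)) * ((j + j' : ℕ) : ℝ) ≤ 1 / 2 := by
    rw [div_mul_eq_mul_div, one_mul, div_le_div_iff₀ (by positivity) (by norm_num)]
    linarith
  calc 1 / (2 * (((j + j' : ℕ) : ℝ) + 1)) * (r.natDegree : ℝ) * ((j + j' : ℕ) : ℝ)
      = 1 / (2 * (((j + j' : ℕ) : ℝ) + 1)) * ((j + j' : ℕ) : ℝ) * (r.natDegree : ℝ) := by ring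
    _ ≤ 1 / 2 * (r.natDegree : ℝ) := mul_le_mul_of_nonneg_right h3 hn

theorem Aa_le (hGKM : StGKM) (hTAU : StTAU) (F : Type) [Field F] [Fintype F] (j j' : ℕ) :
    ∃ B : ℝ, 0 ≤ B ∧ ∀ h : F[X], h ≠ 0 → ∀ i : ℕ,
      Aa j j' h i ≤ B * ((Dv h).card : ℝ) * (Real.sqrt (qr F))⁻¹ ^ i := by
  have hq := qr_pos F
  obtain ⟨B, hB, hG⟩ := exists_G hGKM hTAU F j j'
  refine ⟨B, hB, fun h hh i => ?_⟩
  set s := Real.sqrt (qr F) with hs
  have hs0 : 0 < s := Real.sqrt_pos.2 hq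
  have hss : s ^ 2 = qr F := Real.sq_sqrt hq.le
  unfold Aa
  calc ∑ r ∈ Mn F i, |wf j j' h r|
      ≤ ∑ r ∈ Mn F i, B * s ^ i * (qr F ^ (2 * i))⁻¹ * |(cram r h : ℝ)| := by
        refine Finset.sum_le_sum fun r hr => ?_
        obtain ⟨hr1, hr2⟩ := mem_Mn.1 hr
        obtain ⟨g1, g2⟩ := hG r hr1
        rw [hr2] at g2
        unfold wf
        rw [hr2, abs_mul, abs_mul, abs_of_nonneg g1,
          abs_of_nonneg (inv_nonneg.2 (pow_nonneg hq.le _))]
        refine mul_le_mul_of_nonneg_right ?_ (abs_nonneg _)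
        exact mul_le_mul_of_nonneg_right g2 (inv_nonneg.2 (pow_nonneg hq.le _))
    _ = B * s ^ i * (qr F ^ (2 * i))⁻¹ * ∑ r ∈ Mn F i, |(cram r h : ℝ)| := by
        rw [Finset.mul_sum]
    _ ≤ B * s ^ i * (qr F ^ (2 * i))⁻¹ * (((Dv h).card : ℝ) * qr F ^ i) := by
        refine mul_le_mul_of_nonneg_left (sum_cram_le h hh i) ?_
        exact mul_nonneg (mul_nonneg hB (pow_nonneg hs0.le _)) (inv_nonneg.2 (pow_nonneg hq.le _))
    _ = B * ((Dv h).card : ℝ) * s⁻¹ ^ i := by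
        rw [← hss]
        have h1 : (s ^ i) ≠ 0 := pow_ne_zero _ hs0.ne'
        rw [← pow_mul, ← pow_mul, inv_pow]
        have h2 : s ^ (2 * (2 * i)) = s ^ i * s ^ (2 * i) * s ^ i := by ring
        rw [h2]
        have h3 : s ^ (2 * i) ≠ 0 := pow_ne_zero _ hs0.ne'
        field_simp

theorem summable_Aa (hGKM : StGKM) (hTAU : StTAU) (j j' : ℕ) (h : F[X]) (hh : h ≠ 0) :
    Summable (Aa j j' h) := by
  obtain ⟨B, hB, hA⟩ := Aa_le hGKM hTAU F j j'
  have hq2 := two_le_qr F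
  have h1 : 1 < Real.sqrt (qr F) := by
    rw [show (1 : ℝ) = Real.sqrt 1 by simp]
    exact Real.sqrt_lt_sqrt zero_le_one (by linarith)
  refine Summable.of_nonneg_of_le (Aa_nonneg j j' h) (hA h hh) ?_
  exact (summable_geometric_of_lt_one (inv_nonneg.2 (Real.sqrt_nonneg _))
    (inv_lt_one_of_one_lt₀ h1)).mul_left _

theorem abs_Gs_le (j j' : ℕ) (h : F[X]) (i : ℕ) : |Gs j j' h i| ≤ Aa j j' h i := by
  rw [Gs_eq]
  exact Finset.abs_sum_le_sum_abs _ _

/-! ### primes of degree at most `D` -/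

/-- the monic irreducible polynomials of degree at most `D` -/
def PP (F : Type) [Field F] [Fintype F] (D : ℕ) : Finset F[X] :=
  (Finset.range (D + 1)).biUnion (fun i => Ir F i)

theorem mem_PP {D : ℕ} {P : F[X]} :
    P ∈ PP F D ↔ P.Monic ∧ Irreducible P ∧ P.natDegree ≤ D := by
  unfold PP Ir
  simp only [Finset.mem_biUnion, Finset.mem_range, Finset.mem_filter, mem_Mn]
  constructor
  · rintro ⟨i, hi, ⟨h1, h2⟩, h3⟩
    exact ⟨h1, h3, by omega⟩
  · rintro ⟨h1, h2, h3⟩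
    exact ⟨P.natDegree, by omega, ⟨h1, rfl⟩, h2⟩

theorem sum_sq_le (D : ℕ) : ∑ P ∈ PP F D, ((qr F ^ P.natDegree)⁻¹) ^ 2 ≤ 1 := by
  have hq2 := two_le_qr F
  have hq := qr_pos F
  unfold PP
  rw [Finset.sum_biUnion]
  · have h1 : ∀ i ∈ Finset.range (D + 1), ∑ P ∈ Ir F i, ((qr F ^ P.natDegree)⁻¹) ^ 2 ≤
        if i = 0 then 0 else ((1 : ℝ) / 2) ^ i := by
      intro i _
      split_ifs with hi
      · subst hi
        refine le_of_eq (Finset.sum_eq_zero fun P hP => ?_)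
        unfold Ir at hP
        rw [Finset.mem_filter, mem_Mn] at hP
        obtain ⟨⟨p1, p2⟩, p3⟩ := hP
        exact absurd (p1.natDegree_eq_zero.1 p2) p3.ne_one
      · have h2 : ∀ P ∈ Ir F i, ((qr F ^ P.natDegree)⁻¹) ^ 2 = ((qr F ^ i)⁻¹) ^ 2 := by
          intro P hP
          unfold Ir at hP
          rw [Finset.mem_filter, mem_Mn] at hP
          rw [hP.1.2]
        rw [Finset.sum_congr rfl h2, Finset.sum_const, nsmul_eq_mul]
        have h3 : ((Ir F i).card : ℝ) ≤ qr F ^ i := by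
          have : (Ir F i).card ≤ (Mn F i).card := Finset.card_filter_le _ _
          rw [card_Mn] at this
          exact_mod_cast this
        calc ((Ir F i).card : ℝ) * ((qr F ^ i)⁻¹) ^ 2 ≤ qr F ^ i * ((qr F ^ i)⁻¹) ^ 2 :=
              mul_le_mul_of_nonneg_right h3 (by positivity)
          _ = (qr F ^ i)⁻¹ := by
              have : qr F ^ i ≠ 0 := pow_ne_zero _ hq.ne'
              field_simp
          _ = (qr F)⁻¹ ^ i := by rw [inv_pow]
          _ ≤ (1 / 2) ^ i := by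
              refine pow_le_pow_left₀ (inv_nonneg.2 hq.le) ?_ _
              rw [one_div]
              exact inv_anti₀ (by norm_num) hq2
    refine (Finset.sum_le_sum h1).trans ?_
    have h4 : ∀ D : ℕ, ∑ i ∈ Finset.range (D + 1), (if i = 0 then (0 : ℝ) else (1 / 2) ^ i) ≤
        1 - (1 / 2) ^ D := by
      intro D
      induction D with
      | zero => simp
      | succ n ih =>
        rw [Finset.sum_range_succ, if_neg (Nat.succ_ne_zero n)]
        have : ((1 : ℝ) / 2) ^ (n + 1) = (1 / 2) ^ n / 2 := by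
          rw [pow_succ]
          ring
        rw [this]
        linarith
    have h5 : (0 : ℝ) ≤ (1 / 2) ^ D := by positivity
    linarith [h4 D]
  · intro i _ k _ hik
    refine Finset.disjoint_left.2 fun P h1 h2 => ?_
    unfold Ir at h1 h2
    rw [Finset.mem_filter, mem_Mn] at h1 h2
    exact hik (h1.1.2.symm.trans h2.1.2)

theorem dvd_prod {D a : ℕ} {r : F[X]} (hr : r.Monic) (hrD : r.natDegree ≤ D) (haD : D ≤ a) :
    r ∣ ∏ P ∈ PP F D, P ^ a := by
  set s := UniqueFactorizationMonoid.normalizedFactors r with hs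
  have h1 : Associated s.prod r := UniqueFactorizationMonoid.prod_normalizedFactors hr.ne_zero
  refine h1.symm.dvd.trans ?_
  have hmem : ∀ P ∈ s, P.Monic ∧ Irreducible P := by
    intro P hP
    have h2 := UniqueFactorizationMonoid.irreducible_of_normalized_factor P hP
    refine ⟨?_, h2⟩
    have h3 := UniqueFactorizationMonoid.normalize_normalized_factor P hP
    rw [← h3]
    exact Polynomial.monic_normalize h2.ne_zero
  rw [Finset.prod_multiset_count]
  have hcount : ∀ P ∈ s.toFinset, s.count P ≤ D ∧ P.natDegree ≤ D := by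
    intro P hP
    have hP' := Multiset.mem_toFinset.1 hP
    obtain ⟨p1, p2⟩ := hmem P hP'
    have h4 : P ^ s.count P ∣ r := by
      refine dvd_trans ?_ h1.dvd
      rw [Finset.prod_multiset_count]
      exact Finset.dvd_prod_of_mem (fun m => m ^ s.count m) hP
    have h5 := Polynomial.natDegree_le_of_dvd h4 hr.ne_zero
    rw [p1.natDegree_pow] at h5
    have h6 : 0 < P.natDegree := p2.natDegree_pos
    have h7 : 1 ≤ s.count P := Multiset.one_le_count_iff_mem.2 hP'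
    constructor
    · nlinarith
    · nlinarith
  calc ∏ m ∈ s.toFinset, m ^ s.count m ∣ ∏ m ∈ s.toFinset, m ^ a :=
        Finset.prod_dvd_prod_of_dvd _ _ fun P hP => pow_dvd_pow _ ((hcount P hP).1.trans haD)
    _ ∣ ∏ P ∈ PP F D, P ^ a := by
        refine Finset.prod_dvd_prod_of_subset _ _ _ fun P hP => ?_
        obtain ⟨p1, p2⟩ := hmem P (Multiset.mem_toFinset.1 hP)
        exact mem_PP.2 ⟨p1, p2, (hcount P hP).2⟩

/-! ### the local lower bound -/

theorem exp_le_one_sub {t : ℝ} (h0 : 0 ≤ t) (h1 : t ≤ 1 / 2) : Real.exp (-(2 * t)) ≤ 1 - t := by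
  have h2 : 2 * t + 1 ≤ Real.exp (2 * t) := Real.add_one_le_exp _
  have h3 : 1 ≤ (1 - t) * Real.exp (2 * t) := by
    have : (1 - t) * (2 * t + 1) ≤ (1 - t) * Real.exp (2 * t) :=
      mul_le_mul_of_nonneg_left h2 (by linarith)
    nlinarith
  rw [Real.exp_neg, inv_le_comm₀ (Real.exp_pos _) (by linarith)]
  rw [inv_le_iff_one_le_mul₀ (by linarith)]
  linarith [mul_comm (1 - t) (Real.exp (2 * t))]

theorem local_lower (j j' : ℕ) (x : ℝ) (hx0 : 0 < x) (hx1 : x ≤ 1 / 2)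
    (hu : 1 - (1 - x) ^ j ≤ j * x) (hv : 1 - (1 - x) ^ j' ≤ j' * x) :
    Real.exp (-((2 * (j * j') * (1 + j) : ℝ) * x ^ 2)) ≤
      1 - (1 - (1 - x) ^ j) * (1 - (1 - x) ^ j') := by
  have hy0 : 0 ≤ 1 - x := by linarith
  have hy1 : 1 - x ≤ 1 := by linarith
  have hu0 : 0 ≤ 1 - (1 - x) ^ j := by
    have := pow_le_one₀ (n := j) hy0 hy1
    linarith
  have hv0 : 0 ≤ 1 - (1 - x) ^ j' := by
    have := pow_le_one₀ (n := j') hy0 hy1
    linarith
  have hv1 : 1 - (1 - x) ^ j' ≤ 1 := by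
    have := pow_nonneg hy0 j'
    linarith
  have hj : (0 : ℝ) ≤ j := Nat.cast_nonneg _
  have hj' : (0 : ℝ) ≤ j' := Nat.cast_nonneg _
  have hm : (0 : ℝ) ≤ (j : ℝ) * j' * x ^ 2 := by positivity
  by_cases hc : (j : ℝ) * j' * x ^ 2 ≤ 1 / 2
  · have h1 : (1 - (1 - x) ^ j) * (1 - (1 - x) ^ j') ≤ (j : ℝ) * j' * x ^ 2 := by
      calc _ ≤ ((j : ℝ) * x) * (j' * x) := mul_le_mul hu hv hv0 (by positivity)
        _ = _ := by ring
    calc Real.exp (-((2 * (j * j') * (1 + j) : ℝ) * x ^ 2))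
        ≤ Real.exp (-(2 * ((j : ℝ) * j' * x ^ 2))) := by
          rw [Real.exp_le_exp]
          nlinarith
      _ ≤ 1 - (j : ℝ) * j' * x ^ 2 := exp_le_one_sub hm hc
      _ ≤ _ := by linarith
  · rw [not_le] at hc
    have h2 : (1 - (1 - x) ^ j) * (1 - (1 - x) ^ j') ≤ 1 - (1 - x) ^ j :=
      mul_le_of_le_one_right hu0 hv1
    have h3 : ((1 : ℝ) / 2) ^ j ≤ (1 - x) ^ j := pow_le_pow_left₀ (by norm_num) (by linarith) _
    have h4 : Real.exp (-(j : ℝ)) ≤ ((1 : ℝ) / 2) ^ j := by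
      have h5 : Real.exp (-1) ≤ 1 / 2 := by
        rw [Real.exp_neg, one_div]
        refine inv_anti₀ (by norm_num) ?_
        have := Real.add_one_le_exp (1 : ℝ)
        linarith
      calc Real.exp (-(j : ℝ)) = Real.exp (-1) ^ j := by
            rw [← Real.exp_nat_mul]
            congr 1
            ring
        _ ≤ (1 / 2) ^ j := pow_le_pow_left₀ (Real.exp_pos _).le h5 _
    have h6 : Real.exp (-((2 * (j * j') * (1 + j) : ℝ) * x ^ 2)) ≤ Real.exp (-(j : ℝ)) := by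
      rw [Real.exp_le_exp, neg_le_neg_iff]
      have h7 : (1 : ℝ) ≤ 2 * ((j : ℝ) * j' * x ^ 2) := by linarith
      calc (j : ℝ) ≤ 1 * (1 + j) := by linarith
        _ ≤ 2 * ((j : ℝ) * j' * x ^ 2) * (1 + j) :=
            mul_le_mul_of_nonneg_right h7 (by linarith)
        _ = _ := by ring
    linarith

theorem wf_one (hGKM : StGKM) (hCRM : StCRM) (j j' : ℕ) (h : F[X]) : wf j j' h 1 = 1 := by
  obtain ⟨c1, -, -⟩ := hCRM F h
  unfold wf
  rw [(hGKM F j).1, (hGKM F j').1, c1]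
  simp

theorem wf_mul (hGKM : StGKM) (hCRM : StCRM) (j j' : ℕ) (h : F[X]) (r s : F[X]) (hr : r.Monic)
    (hs : s.Monic) (hrs : IsCoprime r s) : wf j j' h (r * s) = wf j j' h r * wf j j' h s := by
  obtain ⟨-, c2, -⟩ := hCRM F h
  unfold wf
  rw [(hGKM F j).2.1 r s hr hs hrs, (hGKM F j').2.1 r s hr hs hrs, c2 r s hr hs hrs,
    hr.natDegree_mul hs, mul_add, pow_add, mul_inv]
  push_cast
  ring

theorem sum_Dv_lower (hGKM : StGKM) (hGKP : StGKP) (hCRM : StCRM) (hLOC : StLOC) (hDSM : StDSM)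
    (j j' D a : ℕ) (h : F[X]) (hh : h ≠ 0) (ha : h.natDegree < a) :
    Real.exp (-(2 * (j * j') * (1 + j) : ℝ)) ≤ ∑ r ∈ Dv (∏ P ∈ PP F D, P ^ a), wf j j' h r := by
  have hq2 := two_le_qr F
  have hq := qr_pos F
  rw [hDSM F (wf j j' h) (PP F D) a (wf_one hGKM hCRM j j' h)
    (fun r s hr hs hrs => wf_mul hGKM hCRM j j' h r s hr hs hrs)
    (fun P hP => ⟨(mem_PP.1 hP).1, (mem_PP.1 hP).2.1⟩)]
  set K : ℝ := 2 * (j * j') * (1 + j) with hK
  have hK0 : 0 ≤ K := by positivity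
  have h1 : Real.exp (-K) ≤ ∏ P ∈ PP F D, Real.exp (-(K * ((qr F ^ P.natDegree)⁻¹) ^ 2)) := by
    rw [← Real.exp_sum, Real.exp_le_exp, Finset.sum_neg_distrib, ← Finset.mul_sum, neg_le_neg_iff]
    calc K * ∑ P ∈ PP F D, ((qr F ^ P.natDegree)⁻¹) ^ 2 ≤ K * 1 :=
          mul_le_mul_of_nonneg_left (sum_sq_le D) hK0
      _ = K := mul_one K
  refine h1.trans (Finset.prod_le_prod (fun P _ => (Real.exp_pos _).le) fun P hP => ?_)
  obtain ⟨p1, p2, -⟩ := mem_PP.1 hP
  have hdeg : 1 ≤ P.natDegree := p2.natDegree_pos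
  have hPh : ¬ P ^ a ∣ h := by
    intro hd
    have h2 := Polynomial.natDegree_le_of_dvd hd hh
    rw [p1.natDegree_pow] at h2
    nlinarith
  obtain ⟨g1, g2, -⟩ := hGKP F j P p1 p2
  obtain ⟨g1', g2', -⟩ := hGKP F j' P p1 p2
  have hx0 : 0 < (qr F ^ P.natDegree)⁻¹ := inv_pos.2 (pow_pos hq _)
  have hx1 : (qr F ^ P.natDegree)⁻¹ ≤ 1 / 2 := by
    rw [one_div]
    refine inv_anti₀ (by norm_num) ?_
    calc (2 : ℝ) ≤ qr F ^ 1 := by rw [pow_one]; exact hq2
      _ ≤ qr F ^ P.natDegree := pow_le_pow_right₀ (by linarith) hdeg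
  have h3 := local_lower j j' _ hx0 hx1 (g1 ▸ g2) (g1' ▸ g2')
  have h4 := hLOC F j j' a P h p1 p2 hPh
  rw [g1, g1'] at h4
  exact h3.trans h4

theorem sum_Dv_upper (j j' D : ℕ) (h R : F[X]) (hsum : Summable (Aa j j' h)) (hR : R ≠ 0)
    (hdv : ∀ r : F[X], r.Monic → r.natDegree ≤ D → r ∣ R) :
    ∑ r ∈ Dv R, wf j j' h r ≤ ∑' i, Gs j j' h i + 2 * ∑' i, Aa j j' h (i + (D + 1)) := by
  have hDN : D ≤ R.natDegree := by
    have h1 := hdv (X ^ D) (Polynomial.monic_X_pow D) (by rw [Polynomial.natDegree_X_pow])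
    have h2 := Polynomial.natDegree_le_of_dvd h1 hR
    rwa [Polynomial.natDegree_X_pow] at h2
  obtain ⟨m, hm⟩ := Nat.exists_eq_add_of_le hDN
  set b : ℕ → ℝ := fun i => ∑ r ∈ (Mn F i).filter (fun r => r ∣ R), wf j j' h r with hb
  have hb1 : ∀ i, i ≤ D → b i = Gs j j' h i := by
    intro i hi
    rw [Gs_eq, hb]
    refine Finset.sum_congr ?_ fun _ _ => rfl
    rw [Finset.filter_true_of_mem]
    intro r hr
    obtain ⟨r1, r2⟩ := mem_Mn.1 hr
    exact hdv r r1 (by omega)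
  have hb2 : ∀ i, b i ≤ Aa j j' h i := by
    intro i
    calc b i ≤ ∑ r ∈ (Mn F i).filter (fun r => r ∣ R), |wf j j' h r| :=
          Finset.sum_le_sum fun r _ => le_abs_self _
      _ ≤ Aa j j' h i :=
          Finset.sum_le_sum_of_subset_of_nonneg (Finset.filter_subset _ _)
            fun _ _ _ => abs_nonneg _
  have hGs : Summable (Gs j j' h) := by
    refine Summable.of_norm_bounded hsum fun i => ?_
    rw [Real.norm_eq_abs]
    exact abs_Gs_le j j' h i
  have hshA : Summable (fun i => Aa j j' h (i + (D + 1))) :=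
    (summable_nat_add_iff (D + 1)).2 hsum
  have hshG : Summable (fun i => Gs j j' h (i + (D + 1))) :=
    (summable_nat_add_iff (D + 1)).2 hGs
  have h1 : ∑ r ∈ Dv R, wf j j' h r = ∑ i ∈ Finset.range (R.natDegree + 1), b i := by
    unfold Dv
    rw [Finset.filter_biUnion, Finset.sum_biUnion]
    intro i _ k _ hik
    refine Finset.disjoint_left.2 fun P h1 h2 => ?_
    rw [Finset.mem_filter, mem_Mn] at h1 h2
    exact hik (h1.1.2.symm.trans h2.1.2)
  have h2 : ∑ i ∈ Finset.range (R.natDegree + 1), b i =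
      ∑ i ∈ Finset.range (D + 1), b i + ∑ i ∈ Finset.range m, b (D + 1 + i) := by
    rw [hm, show D + m + 1 = (D + 1) + m by ring, Finset.sum_range_add]
  have h3 : ∑ i ∈ Finset.range (D + 1), b i = ∑ i ∈ Finset.range (D + 1), Gs j j' h i :=
    Finset.sum_congr rfl fun i hi => hb1 i (by have := Finset.mem_range.1 hi; omega)
  have h4 : ∑ i ∈ Finset.range m, b (D + 1 + i) ≤ ∑' i, Aa j j' h (i + (D + 1)) := by
    calc ∑ i ∈ Finset.range m, b (D + 1 + i) ≤ ∑ i ∈ Finset.range m, Aa j j' h (i + (D + 1)) := by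
          refine Finset.sum_le_sum fun i _ => ?_
          rw [add_comm (D + 1) i]
          exact hb2 _
      _ ≤ ∑' i, Aa j j' h (i + (D + 1)) :=
          hshA.sum_le_tsum _ fun i _ => Aa_nonneg j j' h _
  have h5 : ∑ i ∈ Finset.range (D + 1), Gs j j' h i + ∑' i, Gs j j' h (i + (D + 1)) =
      ∑' i, Gs j j' h i := hGs.sum_add_tsum_nat_add (D + 1)
  have h6 : 0 ≤ ∑' i, Gs j j' h (i + (D + 1)) + ∑' i, Aa j j' h (i + (D + 1)) := by
    rw [← hshG.tsum_add hshA]
    refine tsum_nonneg fun i => ?_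
    have := neg_abs_le (Gs j j' h (i + (D + 1)))
    have h7 := abs_Gs_le j j' h (i + (D + 1))
    linarith
  rw [h1, h2, h3]
  linarith

end SSP

open SSP in
theorem hSSP (hGKM : StGKM) (hGKP : StGKP) (hCRM : StCRM) (hLOC : StLOC) (hDSM : StDSM)
    (hTAU : StTAU) : StSSP := by
  intro F _ _ j j'
  refine ⟨Real.exp (-(2 * (j * j') * (1 + j) : ℝ)), Real.exp_pos _, fun h hh => ?_⟩
  have hsum : Summable (Aa j j' h) := summable_Aa hGKM hTAU j j' h hh
  have hGs : Summable (Gs j j' h) := by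
    refine Summable.of_norm_bounded hsum fun i => ?_
    rw [Real.norm_eq_abs]
    exact abs_Gs_le j j' h i
  refine ⟨hGs, ?_⟩
  have hlim : Tendsto (fun D : ℕ => ∑' i, Gs j j' h i + 2 * ∑' i, Aa j j' h (i + (D + 1))) atTop
      (𝓝 (∑' i, Gs j j' h i + 2 * 0)) := by
    refine Tendsto.const_add _ (Tendsto.const_mul _ ?_)
    exact (tendsto_sum_nat_add (Aa j j' h)).comp (tendsto_add_atTop_nat 1)
  rw [mul_zero, add_zero] at hlim
  refine ge_of_tendsto' hlim fun D => ?_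
  have hPP0 : ∏ P ∈ PP F D, P ^ (D + h.natDegree + 1) ≠ 0 := by
    refine Finset.prod_ne_zero_iff.2 fun P hP => pow_ne_zero _ ?_
    exact (mem_PP.1 hP).1.ne_zero
  refine (sum_Dv_lower hGKM hGKP hCRM hLOC hDSM j j' D (D + h.natDegree + 1) h hh
    (by omega)).trans ?_
  exact sum_Dv_upper j j' D h _ hsum hPP0 fun r hr hrD => dvd_prod hr hrD (by omega)

end

end Pool.Agent.Helper97.FC
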